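import Mathlib

set_option autoImplicit false

open Set Topology Filter Cardinal

namespace Pool.Agent.Results.MP_fb95e7_gt.NoCommon

universe u v w

/-- A retractional skeleton on `K`. -/
structure Skel (K : Type u) [TopologicalSpace K] where
  Γ : Type v
  po : PartialOrder Γ
  r : Γ → K → K
  nonempty : Nonempty Γ
  directed : ∀ s t : Γ, ∃ z, s ≤ z ∧ t ≤ z
  sigma : ∀ s : ℕ → Γ, Monotone s → ∃ t, IsLUB (range s) t
  cont : ∀ s, Continuous (r s)
  idem : ∀ s, r s ∘ r s = r s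
  metr : ∀ s, TopologicalSpace.MetrizableSpace (range (r s))
  comm : ∀ s t, s ≤ t → r s = r s ∘ r t ∧ r s = r t ∘ r s
  seqlim : ∀ s : ℕ → Γ, StrictMono s → ∀ t, IsLUB (range s) t →
    ∀ x, Tendsto (fun n => r (s n) x) atTop (𝓝 (r t x))
  lim : ∀ x, Tendsto (fun s => r s x) atTop (𝓝 x)

attribute [instance] Skel.po

/-- The set induced by a skeleton. -/
def Skel.induced {K : Type u} [TopologicalSpace K] (S : Skel.{u, v} K) : Set K :=
  ⋃ s, range (S.r s)

/-- `σ`-closed subsets of a poset. -/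
def SigmaClosed {Γ : Type v} [PartialOrder Γ] (A : Set Γ) : Prop :=
  ∀ s : ℕ → Γ, Monotone s → (∀ n, s n ∈ A) → ∀ t, IsLUB (range s) t → t ∈ A

/-- `R` is a common subskeleton of the skeletons `S n`. -/
def IsCommonSub {K : Type u} [TopologicalSpace K] (R : Skel.{u, w} K) (S : ℕ → Skel.{u, v} K) :
    Prop :=
  ∀ n, ∃ A : Set (S n).Γ, SigmaClosed A ∧ (∀ s, ∃ t ∈ A, s ≤ t) ∧
    ∃ φ : R.Γ ≃o A, ∀ i, R.r i = (S n).r (φ i)

lemma seqlim_mono {K : Type u} [TopologicalSpace K] (S : Skel.{u, v} K) (s : ℕ → S.Γ)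
    (hs : Monotone s) (t : S.Γ) (ht : IsLUB (range s) t) (x : K) :
    Tendsto (fun n => S.r (s n) x) atTop (𝓝 (S.r t x)) := by
  by_cases h : ∃ N, ∀ n, N ≤ n → s n = s N
  · obtain ⟨N, hN⟩ := h
    have : t = s N := by
      refine le_antisymm (ht.2 ?_) (ht.1 ⟨N, rfl⟩)
      rintro _ ⟨n, rfl⟩
      rcases le_total n N with h | h
      · exact hs h
      · exact (hN n h).le
    refine tendsto_const_nhds.congr' ?_
    filter_upwards [eventually_ge_atTop N] with n hn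
    rw [this, hN n hn]
  · push Not at h
    refine tendsto_of_subseq_tendsto fun ns hns => ?_
    have step : ∀ k j : ℕ, ∃ j', k ≤ ns j' ∧ s (ns j) < s (ns j') := by
      intro k j
      obtain ⟨n, hn, hne⟩ := h (ns j)
      obtain ⟨j', hj'⟩ := (hns.eventually (eventually_ge_atTop (max k n))).exists
      exact ⟨j', (le_max_left _ _).trans hj',
        (lt_of_le_of_ne (hs hn) hne.symm).trans_le (hs ((le_max_right _ _).trans hj'))⟩
    choose f hf1 hf2 using step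
    obtain ⟨ms, -, hms⟩ : ∃ ms : ℕ → ℕ, ms 0 = 0 ∧ ∀ k, ms (k + 1) = f (k + 1) (ms k) :=
      ⟨fun n => Nat.rec 0 (fun k j => f (k + 1) j) n, rfl, fun _ => rfl⟩
    refine ⟨ms, S.seqlim (fun n => s (ns (ms n))) (strictMono_nat_of_lt_succ fun k => ?_) t
      ⟨?_, fun b hb => ht.2 ?_⟩ x⟩
    · rw [hms]; exact hf2 _ _
    · rintro _ ⟨n, rfl⟩; exact ht.1 ⟨_, rfl⟩
    · rintro _ ⟨n, rfl⟩
      refine (hs ?_).trans (hb ⟨n, rfl⟩)
      cases n with
      | zero => exact Nat.zero_le _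
      | succ k => rw [hms]; exact hf1 _ _

/-- Re-index a skeleton by `Γ × T`. -/
def Skel.prod {K : Type u} [TopologicalSpace K] (S : Skel.{u, v} K) (T : Type v) [LinearOrder T]
    [WellFoundedLT T] [Nonempty T] (hT : ∀ s : ℕ → T, BddAbove (range s)) : Skel.{u, v} K where
  Γ := S.Γ × T
  po := inferInstance
  r p := S.r p.1
  nonempty := ⟨(S.nonempty.some, Classical.arbitrary T)⟩
  directed s t := by
    obtain ⟨z, h1, h2⟩ := S.directed s.1 t.1
    exact ⟨(z, max s.2 t.2), ⟨h1, le_max_left _ _⟩, ⟨h2, le_max_right _ _⟩⟩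
  sigma s hs := by
    obtain ⟨t, ht⟩ := S.sigma (fun n => (s n).1) (fun a b h => (hs h).1)
    obtain ⟨b, hb, hmin⟩ := (wellFounded_lt (α := T)).has_min _ (hT fun n => (s n).2)
    refine ⟨(t, b), ?_, fun c hc => ⟨ht.2 ?_, not_lt.1 (hmin _ ?_)⟩⟩
    · rintro _ ⟨n, rfl⟩; exact ⟨ht.1 ⟨n, rfl⟩, hb ⟨n, rfl⟩⟩
    · rintro _ ⟨n, rfl⟩; exact (hc ⟨n, rfl⟩).1
    · rintro _ ⟨n, rfl⟩; exact (hc ⟨n, rfl⟩).2
  cont s := S.cont _
  idem s := S.idem _
  metr s := S.metr _
  comm s t h := S.comm _ _ h.1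
  seqlim s hs t ht x := by
    refine seqlim_mono S (fun n => (s n).1) (fun a b h => (hs.monotone h).1) t.1 ⟨?_, ?_⟩ x
    · rintro _ ⟨n, rfl⟩; exact (ht.1 ⟨n, rfl⟩).1
    · intro c hc
      have : (c, t.2) ∈ upperBounds (range s) := by
        rintro _ ⟨n, rfl⟩
        exact ⟨hc ⟨n, rfl⟩, (ht.1 ⟨n, rfl⟩).2⟩
      exact (ht.2 this).1
  lim x := by
    refine (S.lim x).comp (f := Prod.fst) ?_
    haveI : IsDirectedOrder S.Γ := ⟨S.directed⟩
    haveI := S.nonempty
    rw [← prod_atTop_atTop_eq]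
    exact tendsto_fst

lemma general (K : Type u) [TopologicalSpace K] (S : Skel.{u, v} K) :
    ∃ s : ℕ → Skel.{u, v} K, s 0 = S ∧ (∀ n, (s n).induced = S.induced) ∧
      ¬ ∃ R : Skel.{u, w} K, IsCommonSub R s := by
  classical
  let κ : Cardinal.{v} := Order.succ (max ℵ₀ #S.Γ)
  have hreg : κ.IsRegular := isRegular_succ (le_max_left _ _)
  have hcof : Order.cof κ.ord.ToType = κ := by rw [Ordinal.cof_toType, hreg.cof_ord]
  have hsmall : ∀ A : Set κ.ord.ToType, #A ≤ max ℵ₀ #S.Γ → ¬ IsCofinal A := fun A hA h => by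
    have := Order.cof_le h
    rw [hcof] at this
    exact absurd (this.trans hA) (not_le.2 (Order.lt_succ _))
  haveI : Nonempty κ.ord.ToType := by
    by_contra h
    rw [not_nonempty_iff] at h
    exact hsmall ∅ (by simp) IsCofinal.of_isEmpty
  have hT : ∀ s : ℕ → κ.ord.ToType, BddAbove (range s) := fun s =>
    BddAbove.of_not_isCofinal (hsmall _
      ((Cardinal.le_aleph0_iff_set_countable.2 (countable_range s)).trans (le_max_left _ _)))
  refine ⟨fun n => Nat.casesOn n S fun _ => S.prod _ hT, rfl, ?_, ?_⟩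
  · intro n
    cases n with
    | zero => rfl
    | succ n =>
      ext x
      simp only [Skel.induced, mem_iUnion]
      exact ⟨fun ⟨p, hp⟩ => ⟨p.1, hp⟩, fun ⟨p, hp⟩ => ⟨(p, Classical.arbitrary _), hp⟩⟩
  · rintro ⟨R, hR⟩
    obtain ⟨A, -, -, φ, -⟩ := hR 0
    obtain ⟨B, -, hB, ψ, -⟩ := hR 1
    change Set S.Γ at A
    change Set (S.Γ × κ.ord.ToType) at B
    have hAB : #B = #A := mk_congr (ψ.symm.trans φ).toEquiv
    refine hsmall (Prod.snd '' B) ?_ fun a => ?_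
    · exact mk_image_le.trans (hAB.le.trans ((mk_set_le A).trans (le_max_right _ _)))
    · obtain ⟨t, ht, hle⟩ := hB (S.nonempty.some, a)
      exact ⟨t.2, ⟨t, ht, rfl⟩, hle.2⟩

/-- The trivial skeleton on a point. -/
def triv : Skel.{u, v} PUnit where
  Γ := PUnit
  po := inferInstance
  r _ := id
  nonempty := inferInstance
  directed s _ := ⟨s, le_rfl, le_of_eq rfl⟩
  sigma _ _ := ⟨PUnit.unit, fun _ _ => le_of_eq rfl, fun _ _ => le_of_eq rfl⟩
  cont _ := continuous_id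
  idem _ := rfl
  metr _ := inferInstance
  comm _ _ _ := ⟨rfl, rfl⟩
  seqlim _ _ _ _ _ := tendsto_const_nhds
  lim _ := tendsto_const_nhds

theorem result :
    (∃ (K : Type u) (_ : TopologicalSpace K) (_ : CompactSpace K) (_ : T2Space K)
      (s : ℕ → Skel.{u, v} K), (∀ m n, (s m).induced = (s n).induced) ∧
        ¬ ∃ R : Skel.{u, w} K, IsCommonSub R s) ∧
    ∀ (K : Type u) [TopologicalSpace K] [CompactSpace K] [T2Space K] (S : Skel.{u, v} K),
      ∃ s : ℕ → Skel.{u, v} K, s 0 = S ∧ (∀ n, (s n).induced = S.induced) ∧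
        ¬ ∃ R : Skel.{u, w} K, IsCommonSub R s := by
  refine ⟨?_, fun K _ _ _ S => general K S⟩
  obtain ⟨s, -, h1, h2⟩ := general.{u, v, w} PUnit triv
  exact ⟨PUnit, inferInstance, inferInstance, inferInstance, s,
    fun m n => (h1 m).trans (h1 n).symm, h2⟩

end Pool.Agent.Results.MP_fb95e7_gt.NoCommon
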